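import Pool.Agent.Helper317.PMU.Main1
import Pool.Agent.Helper317.PMU.Main2

/-!
The uniqueness of prime models (`PMU`) lies strictly between `RCA₀` and `ACA₀` and is incomparable
with `WKL₀`: it fails in an omega-model of `WKL₀`, and it holds in an omega-model of `RCA₀` in
which weak Koenig's lemma and arithmetical comprehension fail.
-/

namespace Pool.Agent.Results.MP_031366_lc.PrimeModelUniqueness

open Pool.Agent.Helper317.SOA Pool.Agent.Helper317.PM

/-- `WKL₀` (so `RCA₀`) does not prove `PMU`, and `RCA₀ + PMU` does not prove weak Koenig's lemma,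
nor arithmetical comprehension. -/
theorem result :
    (∃ S : Set (Set ℕ), RCA0 (omega S) ∧ WKL S ∧ ¬ PMU S) ∧
      ∃ S : Set (Set ℕ), RCA0 (omega S) ∧ PMU S ∧ ¬ WKL S ∧ ¬ ACA (omega S) :=
  ⟨part1, part2⟩

end Pool.Agent.Results.MP_031366_lc.PrimeModelUniqueness
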